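import Mathlib

/-!
# Cut-and-choose arenas: a point survives unless the obvious strategy exists

An arena records a fixed strategy of player A. Ulam matrices handle one block of successor size,
and a closed-game argument glues the blocks.
-/

namespace Pool.Agent.P.MP_053b7f_lc

open Cardinal hiding univ
open Set Order

universe u

theorem card_iUnion_le {E I : Type u} {θ : Cardinal.{u}} (hθ : ℵ₀ ≤ θ) (A : I → Set E)
    (hI : #I ≤ θ) (hA : ∀ i, #(A i) ≤ θ) : #(⋃ i, A i) ≤ θ := by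
  refine (mk_iUnion_le A).trans ?_
  calc #I * ⨆ i, #(A i) ≤ θ * θ := mul_le_mul' hI (ciSup_le' hA)
    _ = θ := mul_eq_self hθ

theorem card_natUnion_le {E : Type u} {θ : Cardinal.{u}} (hθ : ℵ₀ ≤ θ) (A : ℕ → Set E)
    (hA : ∀ i, #(A i) ≤ θ) : #(⋃ i, A i) ≤ θ := by
  have h : (⋃ i, A i) = ⋃ i : ULift.{u} ℕ, A i.down := by
    ext x
    simp only [mem_iUnion]
    exact ⟨fun ⟨i, hi⟩ => ⟨⟨i⟩, hi⟩, fun ⟨i, hi⟩ => ⟨i.down, hi⟩⟩
  rw [h]
  exact card_iUnion_le hθ _ (by simpa using hθ) fun i => hA _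

/-- Ulam matrices: a positive set splits into many positive sets. -/
theorem ulam {E N : Type u} [Nonempty N] {θ : Cardinal.{u}} (hθ : ℵ₀ ≤ θ) (E₀ : Set E)
    (hE : #E₀ = succ θ) (N₀ : Set N) (hN : #N₀ ≤ succ θ)
    (Sm : Set E → Prop) (mono : ∀ A B, A ⊆ B → Sm B → Sm A)
    (un : ∀ (I : Type u) (A : I → Set E), #I ≤ θ → (∀ i, Sm (A i)) → Sm (⋃ i, A i))
    (small : ∀ A : Set E, #A ≤ θ → Sm A) (T : Set E) (hT : T ⊆ E₀) (hpos : ¬ Sm T) :
    ∃ g : E → N, ∀ n ∈ N₀, ¬ Sm (T ∩ g ⁻¹' {n}) := by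
  classical
  obtain ⟨_, _, ho⟩ := exists_ord_eq_type_lt (↥E₀)
  have hinf : ℵ₀ ≤ #E₀ := by rw [hE]; exact hθ.trans (le_succ θ)
  have he : ∀ β : E₀, Nonempty (Iio β ↪ θ.out) := fun β => by
    rw [← Cardinal.le_def, mk_out, ← lt_succ_iff, ← hE]
    exact mk_Iio_lt β ho
  let e : ∀ β : E₀, Iio β ↪ θ.out := fun β => (he β).some
  let U : E₀ → θ.out → Set E := fun α i =>
    {x | ∃ (hx : x ∈ E₀) (h : α < ⟨x, hx⟩), e ⟨x, hx⟩ ⟨α, h⟩ = i}
  have hi : ∀ α : E₀, ∃ i, ¬ Sm (T ∩ U α i) := by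
    intro α
    by_contra h
    push Not at h
    apply hpos
    let B : Option θ.out → Set E := fun o =>
      match o with
      | none => Subtype.val '' Iic α
      | some i => T ∩ U α i
    refine mono _ (⋃ o, B o) ?_ (un _ B ?_ ?_)
    · intro x hx
      rcases lt_or_ge α ⟨x, hT hx⟩ with h1 | h1
      · exact mem_iUnion.2 ⟨some (e ⟨x, hT hx⟩ ⟨α, h1⟩), hx, hT hx, h1, rfl⟩
      · exact mem_iUnion.2 ⟨none, ⟨x, hT hx⟩, h1, rfl⟩
    · rw [mk_option, mk_out, add_one_eq hθ]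
    · rintro (_ | i)
      · refine small _ (mk_image_le.trans ?_)
        rw [← lt_succ_iff, ← hE]
        exact mk_Iic_lt α ho hinf
      · exact h i
  choose i hi using hi
  obtain ⟨a, ha⟩ := infinite_pigeonhole_card_lt i (by rw [mk_out, hE]; exact lt_succ θ) hinf
  rw [mk_out, ← succ_le_iff] at ha
  obtain ⟨φ⟩ := (Cardinal.le_def _ _).1 (hN.trans ha)
  refine ⟨fun x => if h : ∃ n : N₀, x ∈ U (φ n) a then (h.choose : N) else Classical.arbitrary N,
    fun n hn hs => hi (φ ⟨n, hn⟩).1 (mono _ _ ?_ hs)⟩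
  rintro x ⟨hx, hxU⟩
  have hia : i (φ ⟨n, hn⟩).1 = a := (φ ⟨n, hn⟩).2
  rw [hia] at hxU
  have hex : ∃ n : N₀, x ∈ U (φ n) a := ⟨⟨n, hn⟩, hxU⟩
  refine ⟨hx, ?_⟩
  simp only [mem_preimage, mem_singleton_iff, dif_pos hex]
  obtain ⟨h1, h2, h3⟩ := hex.choose_spec
  obtain ⟨h4, h5, h6⟩ := hxU
  have h7 := (e ⟨x, h1⟩).injective (h3.trans h6.symm)
  have h8 : φ hex.choose = φ ⟨n, hn⟩ := Subtype.ext (Subtype.mk.inj h7)
  exact congrArg Subtype.val (φ.injective h8)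

/-- The positions that arise against a fixed strategy of A: at `s` the set `S s` has been cut
into the sets `part s m`; B takes a part and cuts it by a map `g`, and A answers `pick s m g`. -/
structure Arena (E M N : Type u) where
  /-- positions -/
  Pos : Type u
  /-- the current set -/
  S : Pos → Set E
  /-- the parts offered by A -/
  part : Pos → M → Set E
  /-- the part taken by A -/
  pick : Pos → M → (E → N) → N
  /-- the next position -/
  next : Pos → M → (E → N) → Pos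
  cov : ∀ s x, x ∈ S s → ∃ m, x ∈ part s m
  keep : ∀ s m g x, x ∈ part s m → g x = pick s m g → x ∈ S (next s m g)

variable {E M N : Type u}

/-- Some point survives along some play from `s₀`. -/
def Arena.Survive (A : Arena E M N) (s₀ : A.Pos) : Prop :=
  ∃ (x : E) (s : ℕ → A.Pos) (m : ℕ → M) (g : ℕ → E → N), s 0 = s₀ ∧
    (∀ n, s (n + 1) = A.next (s n) (m n) (g n)) ∧ ∀ n, x ∈ A.S (s n) ∧ x ∈ A.part (s n) (m n)

theorem Arena.survive_of_closed (A : Arena E M N) (x : E) (P : A.Pos → Prop)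
    (hP : ∀ s, P s → x ∈ A.S s) (h : ∀ s, P s → ∃ m g, x ∈ A.part s m ∧ P (A.next s m g))
    (s₀ : A.Pos) (h0 : P s₀) : A.Survive s₀ := by
  choose m g h1 h2 using h
  let s : ℕ → {s // P s} := fun n =>
    Nat.rec ⟨s₀, h0⟩ (fun _ t => ⟨A.next t.1 (m t.1 t.2) (g t.1 t.2), h2 t.1 t.2⟩) n
  exact ⟨x, fun n => (s n).1, fun n => m _ (s n).2, fun n => g _ (s n).2, rfl, fun _ => rfl,
    fun n => ⟨hP _ (s n).2, h1 _ (s n).2⟩⟩

/-- One block of successor size. -/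
theorem Arena.block [Nonempty N] (A : Arena E M N) {θ : Cardinal.{u}} (hθ : ℵ₀ ≤ θ)
    (hM : #M ≤ θ) (E₀ : Set E) (hE : #E₀ = succ θ) (N₀ : Set N) (hN : #N₀ ≤ succ θ)
    (W : Set A.Pos)
    (hW : ∀ s ∈ W, ∀ (m : M) (g : E → N), ∃ g' : E → N, (∀ x ∈ E₀, g' x = g x) ∧
      A.pick s m g' ∈ N₀ ∧ A.next s m g' ∈ W)
    (s₀ : A.Pos) (h0 : s₀ ∈ W) (hs : E₀ ⊆ A.S s₀) : A.Survive s₀ := by
  classical
  have key : ∀ (s : A.Pos) (m : M), ∃ (X : Set E) (G : Set (E → N)), #X ≤ θ ∧ #G ≤ θ ∧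
      (∀ g ∈ G, A.next s m g ∈ W) ∧
      (s ∈ W → ∀ x ∈ A.part s m ∩ E₀, x ∈ X ∨ ∃ g ∈ G, g x = A.pick s m g) := by
    intro s m
    by_cases hsW : s ∈ W
    swap
    · exact ⟨∅, ∅, by simp, by simp, by simp, fun h => absurd h hsW⟩
    let Sm : Set E → Prop := fun B => ∃ (X : Set E) (G : Set (E → N)), #X ≤ θ ∧ #G ≤ θ ∧
      (∀ g ∈ G, A.next s m g ∈ W) ∧ ∀ x ∈ B, x ∈ X ∨ ∃ g ∈ G, g x = A.pick s m g
    suffices h : Sm (A.part s m ∩ E₀) by
      obtain ⟨X, G, h1, h2, h3, h4⟩ := h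
      exact ⟨X, G, h1, h2, h3, fun _ => h4⟩
    by_contra hpos
    obtain ⟨g, hg⟩ := ulam hθ E₀ hE N₀ hN Sm
      (fun B C hBC ⟨X, G, h1, h2, h3, h4⟩ => ⟨X, G, h1, h2, h3, fun x hx => h4 x (hBC hx)⟩)
      (fun I B hI hB => by
        choose X G h1 h2 h3 h4 using hB
        refine ⟨⋃ i, X i, ⋃ i, G i, card_iUnion_le hθ _ hI h1, card_iUnion_le hθ _ hI h2, ?_, ?_⟩
        · intro g hg
          obtain ⟨i, hi⟩ := mem_iUnion.1 hg
          exact h3 i g hi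
        · intro x hx
          obtain ⟨i, hi⟩ := mem_iUnion.1 hx
          rcases h4 i x hi with h | ⟨g, hg, h⟩
          · exact Or.inl (mem_iUnion.2 ⟨i, h⟩)
          · exact Or.inr ⟨g, mem_iUnion.2 ⟨i, hg⟩, h⟩)
      (fun B hB => ⟨B, ∅, hB, by simp, by simp, fun x hx => Or.inl hx⟩)
      _ inter_subset_right hpos
    obtain ⟨g', h1, h2, h3⟩ := hW s hsW m g
    refine hg _ h2 ⟨∅, {g'}, by simp, ?_, ?_, ?_⟩
    · rw [mk_singleton]; exact one_le_aleph0.trans hθ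
    · rintro _ rfl; exact h3
    · rintro x ⟨hx, hx'⟩
      exact Or.inr ⟨g', rfl, (h1 x hx.2).trans hx'⟩
  choose X G hX hG hGW hcov using key
  let R : ℕ → Set A.Pos := fun n =>
    Nat.rec {s₀} (fun _ T => ⋃ s : T, ⋃ m : M, ⋃ g : G s.1 m, {A.next s.1 m g.1}) n
  have hR : ∀ n, #(↥(R n)) ≤ θ := by
    intro n
    induction n with
    | zero => exact (mk_singleton s₀).le.trans (one_le_aleph0.trans hθ)
    | succ n ih =>
      exact card_iUnion_le hθ _ ih fun s => card_iUnion_le hθ _ hM fun m =>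
        card_iUnion_le hθ _ (hG _ _) fun g => (mk_singleton _).le.trans (one_le_aleph0.trans hθ)
  have hbad : #(⋃ n, ⋃ s : R n, ⋃ m : M, X s.1 m) ≤ θ :=
    card_natUnion_le hθ _ fun n => card_iUnion_le hθ _ (hR n) fun s =>
      card_iUnion_le hθ _ hM fun m => hX _ _
  obtain ⟨x, hx, hxb⟩ : ∃ x ∈ E₀, x ∉ ⋃ n, ⋃ s : R n, ⋃ m : M, X s.1 m := by
    by_contra h
    push Not at h
    have := (mk_le_mk_of_subset h).trans hbad
    rw [hE] at this
    exact absurd this (not_le.2 (lt_succ θ))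
  refine A.survive_of_closed x (fun s => (∃ n, s ∈ R n) ∧ s ∈ W ∧ x ∈ A.S s) (fun s h => h.2.2)
    ?_ s₀ ⟨⟨0, rfl⟩, h0, hs hx⟩
  rintro s ⟨⟨n, hn⟩, hsW, hxs⟩
  obtain ⟨m, hm⟩ := A.cov s x hxs
  rcases hcov s m hsW x ⟨hm, hx⟩ with h | ⟨g, hg, h⟩
  · exact absurd (mem_iUnion.2 ⟨n, mem_iUnion.2 ⟨⟨s, hn⟩, mem_iUnion.2 ⟨m, h⟩⟩⟩) hxb
  · refine ⟨m, g, hm, ⟨n + 1, ?_⟩, hGW s m g hg, A.keep s m g x hm h⟩
    exact mem_iUnion.2 ⟨⟨s, hn⟩, mem_iUnion.2 ⟨m, mem_iUnion.2 ⟨⟨g, hg⟩, rfl⟩⟩⟩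

/-- Well-founded plans. -/
inductive Plan (E M N : Type u) : Type u
  | stop : Plan E M N
  | node (m : M) (g : E → N) (c : (E → N) → Plan E M N) : Plan E M N

/-- The cut proposed by a plan. -/
def Plan.cut (d : N) : Plan E M N → E → N
  | .stop => fun _ => d
  | .node _ g _ => g

/-- The continuation of a plan. -/
def Plan.child : Plan E M N → (E → N) → Plan E M N
  | .stop => fun _ => .stop
  | .node _ _ c => c

/-- The plan forces A, after finitely many rounds, to take a part outside `N₀`. -/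
def Arena.Valid (A : Arena E M N) (E₀ : Set E) (N₀ : Set N) : Plan E M N → A.Pos → Prop
  | .stop => fun _ => False
  | .node m g c => fun s => ∀ g' : E → N, (∀ x ∈ E₀, g' x = g x) → A.pick s m g' ∈ N₀ →
      A.Valid E₀ N₀ (c g') (A.next s m g')

/-- Many blocks. -/
theorem Arena.blocks [Nonempty N] (A : Arena E M N) {Θ : Type u} (θ : Θ → Cardinal.{u})
    (hθ : ∀ ξ, ℵ₀ ≤ θ ξ) (hM : ∀ ξ, #M ≤ θ ξ) (F : Θ → Set E) (hE : ∀ ξ, #(F ξ) = succ (θ ξ))
    (hdis : ∀ ξ ζ x, x ∈ F ξ → x ∈ F ζ → ξ = ζ)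
    (K : Θ → Set N) (hN : ∀ ξ, #(K ξ) ≤ succ (θ ξ))
    (hb : ∀ η : List M × M → N, ∃ ξ, ∀ i, η i ∈ K ξ)
    (s₀ : A.Pos) (hs : A.S s₀ = univ) : A.Survive s₀ := by
  classical
  by_cases h : ∀ ξ, ∃ t, A.Valid (F ξ) (K ξ) t s₀
  swap
  · push Not at h
    obtain ⟨ξ, hξ⟩ := h
    refine A.block (hθ ξ) (hM ξ) (F ξ) (hE ξ) (K ξ) (hN ξ)
      {s | ∀ t, ¬ A.Valid (F ξ) (K ξ) t s} ?_ s₀ hξ (hs ▸ subset_univ _)
    intro s hsW m g
    by_contra hc
    push Not at hc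
    have hc' : ∀ g' : E → N, ∃ t, (∀ x ∈ F ξ, g' x = g x) → A.pick s m g' ∈ K ξ →
        A.Valid (F ξ) (K ξ) t (A.next s m g') := by
      intro g'
      by_cases h1 : (∀ x ∈ F ξ, g' x = g x) ∧ A.pick s m g' ∈ K ξ
      · have := hc g' h1.1 h1.2
        simp only [mem_ofPred_eq, not_forall, not_not] at this
        obtain ⟨t, ht⟩ := this
        exact ⟨t, fun _ _ => ht⟩
      · exact ⟨.stop, fun h2 h3 => absurd ⟨h2, h3⟩ h1⟩
    choose c hc' using hc'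
    exact hsW (.node m g c) hc'
  exfalso
  choose D₀ hD₀ using h
  let d : N := Classical.arbitrary N
  let glue : (Θ → Plan E M N) → E → N := fun D x =>
    if h : ∃ ξ, x ∈ F ξ then (D h.choose).cut d x else d
  have hglue : ∀ D ξ x, x ∈ F ξ → glue D x = (D ξ).cut d x := by
    intro D ξ x hx
    have hex : ∃ ξ, x ∈ F ξ := ⟨ξ, hx⟩
    simp only [glue, dif_pos hex]
    rw [hdis _ _ x hex.choose_spec hx]
  let node : List M → A.Pos × (Θ → Plan E M N) := fun l =>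
    List.rec (s₀, D₀)
      (fun m _ p => (A.next p.1 m (glue p.2), fun ξ => (p.2 ξ).child (glue p.2))) l
  obtain ⟨ξ, hξ⟩ := hb fun i => A.pick (node i.1).1 i.2 (glue (node i.1).2)
  have main : ∀ (t : Plan E M N) (l : List M), (node l).2 ξ = t →
      ¬ A.Valid (F ξ) (K ξ) t (node l).1 := by
    intro t
    induction t with
    | stop => intro l _ hv; exact hv
    | node m g c ih =>
      intro l hl hv
      refine ih (glue (node l).2) (m :: l) ?_ (hv _ ?_ (hξ (l, m)))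
      · change ((node l).2 ξ).child _ = _
        rw [hl]; rfl
      · intro x hx
        rw [hglue _ ξ x hx, hl]; rfl
  exact main _ [] rfl (hD₀ ξ)

/-- If `E` is not a union of `max |M| ℵ₀` sets of size below `|N|`, a point survives. -/
theorem Arena.survive [Nontrivial N] (A : Arena E M N) (s₀ : A.Pos) (hs : A.S s₀ = univ)
    (H : ¬ ∃ 𝒞 : Set (Set E), #𝒞 ≤ max #M ℵ₀ ∧ (∀ C ∈ 𝒞, #C < #N) ∧ ⋃₀ 𝒞 = univ) :
    A.Survive s₀ := by
  classical
  have h1 : max #M ℵ₀ < #E := by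
    by_contra h
    refine H ⟨range fun x : E => {x}, mk_range_le.trans (not_lt.1 h), ?_, ?_⟩
    · rintro _ ⟨x, rfl⟩
      rw [mk_singleton]
      exact one_lt_iff_nontrivial.2 inferInstance
    · exact eq_univ_of_forall fun x => ⟨{x}, ⟨x, rfl⟩, rfl⟩
  have h2 : #N ≤ #E := by
    by_contra h
    refine H ⟨{univ}, ?_, ?_, by simp⟩
    · rw [mk_singleton]; exact one_le_aleph0.trans (le_max_right _ _)
    · rintro _ rfl
      rw [mk_univ]; exact not_le.1 h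
  rcases h2.lt_or_eq with h3 | h3
  · obtain ⟨E₀, hE⟩ := le_mk_iff_exists_set.1 (succ_le_of_lt (max_lt h3 h1))
    refine A.block (θ := max #N (max #M ℵ₀)) (le_max_of_le_right (le_max_right _ _))
      (le_max_of_le_right (le_max_left _ _)) E₀ hE univ ?_ univ
      (fun s _ m g => ⟨g, fun _ _ => rfl, trivial, trivial⟩) s₀ trivial (hs ▸ subset_univ _)
    rw [mk_univ]
    exact (le_max_left _ _).trans (le_succ _)
  · obtain ⟨_, _, ho⟩ := exists_ord_eq_type_lt N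
    have hinf : ℵ₀ ≤ #E := (le_max_right _ _).trans h1.le
    have hI : ∀ ξ : N, #(Iic ξ) < #N := fun ξ => mk_Iic_lt ξ ho (h3 ▸ hinf)
    have hY : ∀ ξ : N, ∃ Y : Set E, #Y = succ (max #(Iic ξ) (max #M ℵ₀)) := fun ξ =>
      le_mk_iff_exists_set.1 (succ_le_of_lt (max_lt (h3 ▸ hI ξ) h1))
    choose Y hY using hY
    obtain ⟨ψ⟩ : Nonempty (N × E ↪ E) := by
      rw [← Cardinal.le_def, mk_prod, lift_id, lift_id, h3, mul_eq_self hinf]
    obtain ⟨e⟩ : Nonempty (N ≃ E) := Cardinal.eq.1 h3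
    refine A.blocks (fun ξ : N => max #(Iic ξ) (max #M ℵ₀))
      (fun _ => le_max_of_le_right (le_max_right _ _))
      (fun _ => le_max_of_le_right (le_max_left _ _))
      (fun ξ => (fun y => ψ (ξ, y)) '' Y ξ) ?_ ?_ (fun ξ => Iic ξ)
      (fun ξ => (le_max_left _ _).trans (le_succ _)) ?_ s₀ hs
    · intro ξ
      rw [mk_image_eq fun a b h => (Prod.ext_iff.1 (ψ.injective h)).2, hY]
    · rintro ξ ζ _ ⟨a, -, rfl⟩ ⟨b, -, h⟩
      exact (Prod.ext_iff.1 (ψ.injective h)).1.symm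
    · intro η
      by_contra h
      push Not at h
      refine H ⟨range fun i => e '' Iic (η i), mk_range_le.trans ?_, ?_, ?_⟩
      · rw [mk_prod, lift_id, lift_id]
        calc #(List M) * #M ≤ max #M ℵ₀ * max #M ℵ₀ :=
              mul_le_mul' ((mk_list_le_max M).trans (max_comm _ _).le) (le_max_left _ _)
          _ = max #M ℵ₀ := mul_eq_self (le_max_right _ _)
      · rintro _ ⟨i, rfl⟩
        exact mk_image_le.trans_lt (hI _)
      · refine eq_univ_of_forall fun x => ?_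
        obtain ⟨i, hi⟩ := h (e.symm x)
        exact ⟨_, ⟨i, rfl⟩, e.symm x, (not_le.1 hi).le, e.apply_symm_apply x⟩

end Pool.Agent.P.MP_053b7f_lc
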